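import Pool.Agent.Q274.HD.Stm2

/-! Project HD, lemma EXT. -/

set_option linter.unusedVariables false

namespace Pool.Agent.Q297.HD

open WeierstrassCurve Pool.Agent.Q274.HD
open scoped Classical Matrix

/-- the reduction modulo two -/
noncomputable def red (t : T2) : Fin 2 → ZMod 2 := fun k => PadicInt.toZMod (p := 2) (t k)

lemma toZ_zero (x : ℤ_[2]) : PadicInt.toZMod (p := 2) x = 0 ↔ (2 : ℤ_[2]) ∣ x := by
  rw [← RingHom.mem_ker, PadicInt.ker_toZMod, PadicInt.maximalIdeal_eq_span_p,
    Ideal.mem_span_singleton]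
  norm_num

lemma red_zero (t : T2) : red t = 0 ↔ ∀ i, (2 : ℤ_[2]) ∣ t i := by
  rw [funext_iff]
  exact forall_congr' fun i => toZ_zero _

lemma red_sub (t u : T2) : red (t - u) = red t - red u := by
  funext k
  simp [red]

/-- the three vectors -/
def Rv : Fin 3 → Fin 2 → ZMod 2 := ![![1, 0], ![0, 1], ![1, 1]]

/-- the three forms -/
def Lv : Fin 3 → Fin 2 → ZMod 2 := ![![0, 1], ![1, 0], ![1, 1]]

/-- the three vectors in the lattice -/
noncomputable def Vv : Fin 3 → T2 := ![![1, 0], ![0, 1], ![1, 1]]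

lemma red_Vv (a : Fin 3) : red (Vv a) = Rv a := by
  funext k
  fin_cases a <;> fin_cases k <;> simp [red, Vv, Rv]

lemma Lv_iff : ∀ (a : Fin 3) (x : Fin 2 → ZMod 2),
    ∑ k, Lv a k * x k = 0 ↔ x = 0 ∨ x = Rv a := by
  decide

lemma Lv_ne : ∀ a, Lv a ≠ 0 := by decide

lemma Lv_inj : Function.Injective Lv := by decide

lemma Rv_inj : Function.Injective Rv := by decide

lemma Rv_ne : ∀ a, Rv a ≠ 0 := by decide

lemma isT_ne0 {b : Fin 3 → ℤ} {j : Fin 3} {P : Pt b} (h : IsT b j P) : P ≠ 0 := by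
  obtain ⟨h0, rfl⟩ := h
  exact Affine.Point.some_ne_zero h0

lemma isT_eq {b : Fin 3 → ℤ} {j : Fin 3} {P Q : Pt b} (h : IsT b j P) (h' : IsT b j Q) :
    P = Q := by
  obtain ⟨h0, rfl⟩ := h
  obtain ⟨h1, rfl⟩ := h'
  rfl

lemma isT_inj {b : Fin 3 → ℤ} (hb : Function.Injective b) {i j : Fin 3} {P : Pt b}
    (h : IsT b i P) (h' : IsT b j P) : i = j := by
  obtain ⟨h0, rfl⟩ := h
  obtain ⟨h1, h2⟩ := h'
  rw [Affine.Point.some.injEq] at h2
  exact hb (Int.cast_injective (α := QB) h2.1)

lemma isT_fix {b : Fin 3 → ℤ} {j : Fin 3} {P : Pt b} (h : IsT b j P) (σ : GQ) :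
    gal b σ P = P := by
  obtain ⟨h0, rfl⟩ := h
  have e1 : σ ((b j : ℤ) : QB) = ((b j : ℤ) : QB) := map_intCast σ _
  have e2 : σ (0 : QB) = 0 := map_zero σ
  have h3 : ∃ h, gal b σ (Affine.Point.some ((b j : ℤ) : QB) 0 h0) =
      Affine.Point.some (σ ((b j : ℤ) : QB)) (σ 0) h := ⟨_, rfl⟩
  obtain ⟨h, h3⟩ := h3
  rw [h3, Affine.Point.some.injEq]
  exact ⟨e1, e2⟩

lemma two_tor {b : Fin 3 → ℤ} (P : Pt b) (h : P + P = 0) : P = 0 ∨ ∃ j, IsT b j P := by
  rcases P with _ | ⟨X, Y, hXY⟩
  · left; rfl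
  right
  have hE := hXY.1
  rw [Affine.equation_iff] at hE
  simp only [curve, WeierstrassCurve.baseChange, WeierstrassCurve.map_a₁, WeierstrassCurve.map_a₂,
    WeierstrassCurve.map_a₃, WeierstrassCurve.map_a₄, WeierstrassCurve.map_a₆, map_zero] at hE
  by_cases hY : Y = (((curve b).baseChange QB).toAffine).negY X Y
  · simp only [Affine.negY, curve, WeierstrassCurve.baseChange, WeierstrassCurve.map_a₁,
      WeierstrassCurve.map_a₃, map_zero] at hY
    have hY0 : Y = 0 := by
      have : (2 : QB) * Y = 0 := by linear_combination hY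
      exact (mul_eq_zero.1 this).resolve_left two_ne_zero
    subst hY0
    have h3 : (X - ((b 0 : ℤ) : QB)) * (X - ((b 1 : ℤ) : QB)) * (X - ((b 2 : ℤ) : QB)) = 0 := by
      simp only [map_neg, map_add, map_mul, map_intCast] at hE
      linear_combination -hE
    rcases mul_eq_zero.1 h3 with h4 | h4
    · rcases mul_eq_zero.1 h4 with h5 | h5
      · have := sub_eq_zero.1 h5
        subst this
        exact ⟨0, hXY, rfl⟩
      · have := sub_eq_zero.1 h5
        subst this
        exact ⟨1, hXY, rfl⟩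
    · have := sub_eq_zero.1 h4
      subst this
      exact ⟨2, hXY, rfl⟩
  · exfalso
    rw [Affine.Point.add_self_of_Y_ne hY] at h
    exact Affine.Point.some_ne_zero _ h

theorem t_EXT : S_EXT := by
  intro HALF b ρ hb ⟨π, hπ, hker⟩
  -- the map `t ↦ π (2 t)`
  have hτ0 : ∀ t : T2, π t + π t = 0 ↔ red t = 0 := by
    intro t
    rw [← map_add, hker, red_zero]
    refine forall_congr' fun i => ?_
    rw [Pi.add_apply, ← two_mul]
    have h4 : (4 : ℤ_[2]) = 2 * 2 := by norm_num
    rw [h4]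
    exact mul_dvd_mul_iff_left two_ne_zero
  have hτ4 : ∀ t : T2, (π t + π t) + (π t + π t) = 0 := by
    intro t
    rw [← map_add, ← map_add, hker]
    intro i
    refine ⟨t i, ?_⟩
    simp only [Pi.add_apply]
    ring
  have hτsub : ∀ t u : T2, π t + π t = π u + π u ↔ red t = red u := by
    intro t u
    rw [← sub_eq_zero, ← sub_eq_zero (a := red t), ← red_sub, ← hτ0 (t - u), map_sub]
    constructor <;> intro h <;> rw [← h] <;> abel
  have hex : ∀ a : Fin 3, ∃ j, IsT b j (π (Vv a) + π (Vv a)) := by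
    intro a
    rcases two_tor _ (hτ4 (Vv a)) with h | h
    · exfalso
      rw [hτ0, red_Vv] at h
      exact Rv_ne a h
    · exact h
  choose n hn using hex
  have hninj : Function.Injective n := by
    intro a a' haa
    have h1 := hn a
    rw [haa] at h1
    have h2 := (hτsub _ _).1 (isT_eq h1 (hn a'))
    rw [red_Vv, red_Vv] at h2
    exact Rv_inj h2
  set m := (Equiv.ofBijective n (Finite.injective_iff_bijective.1 hninj)).symm with hm
  have hnm : ∀ j, n (m j) = j := fun j =>
    (Equiv.ofBijective n (Finite.injective_iff_bijective.1 hninj)).apply_symm_apply j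
  have hm' : ∀ j, IsT b j (π (Vv (m j)) + π (Vv (m j))) := by
    intro j
    have := hn (m j)
    rwa [hnm] at this
  have hpr : ∀ (j : Fin 3) (t : T2), pr (Lv (m j)) t = 0 ↔
      (π t + π t = 0 ∨ IsT b j (π t + π t)) := by
    intro j t
    have h1 : pr (Lv (m j)) t = ∑ k, Lv (m j) k * red t k := rfl
    rw [h1, Lv_iff, hτ0]
    refine or_congr Iff.rfl ?_
    constructor
    · intro h
      rw [← red_Vv, ← hτsub] at h
      rw [h]
      exact hm' j
    · intro h
      have := (hτsub _ _).1 (isT_eq h (hm' j))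
      rw [this, red_Vv]
  refine ⟨fun j => Lv (m j), ⟨fun j => Lv_ne _, fun i j hij => m.injective (Lv_inj hij), ?_, ?_⟩⟩
  · intro σ t
    have h1 : gal b σ (π t + π t) = π t + π t := by
      rcases two_tor _ (hτ4 t) with h | ⟨j, h⟩
      · rw [h, map_zero]
      · exact isT_fix h σ
    rw [map_add, ← hπ, hτsub, ← sub_eq_zero, ← red_sub, red_zero] at h1
    choose u hu using h1
    refine ⟨u, ?_⟩
    funext i
    have := hu i
    rw [Pi.sub_apply] at this
    simp only [Pi.add_apply, Pi.smul_apply, smul_eq_mul]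
    linear_combination this
  · intro i j hij t u σ ht hpt hu y hy
    have hiT : IsT b i (π t + π t) := by
      rcases (hpr i t).1 hpt with h | h
      · exfalso
        rw [hτ0, red_zero] at h
        obtain ⟨k, hk⟩ := ht
        exact hk (h k)
      · exact h
    rw [HALF b hb (π t) i j hij hiT σ y hy, hpr]
    have h2 : gal b σ (π t) - π t = π u + π u := by
      rw [← hπ, hu, map_add, ← map_add π u u, ← two_smul ℤ_[2] u]
      abel
    rw [h2]

end Pool.Agent.Q297.HD
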