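import Mathlib

/-! Project HD, lemma HALF: halving a point of order two, general field. -/

set_option linter.unusedVariables false

namespace Pool.Agent.Q297.HD

open WeierstrassCurve

variable {F : Type*} [Field F] [DecidableEq F] (W : WeierstrassCurve.Affine F) (p q r : F)

/-- the curve `y ^ 2 = (x - p) (x - q) (x - r)` -/
structure Cv : Prop where
  h1 : W.a₁ = 0
  h3 : W.a₃ = 0
  h2 : W.a₂ = -(p + q + r)
  h4 : W.a₄ = p * q + p * r + q * r
  h6 : W.a₆ = -(p * q * r)

variable {W p q r}

lemma Cv.eqn (C : Cv W p q r) (x y : F) :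
    W.Equation x y ↔ y ^ 2 = (x - p) * (x - q) * (x - r) := by
  rw [Affine.equation_iff, C.h1, C.h3, C.h2, C.h4, C.h6]
  constructor <;> intro h <;> linear_combination h

lemma Cv.halve (C : Cv W p q r) (h2 : (2 : F) ≠ 0) (hpq : p ≠ q) (P : W.Point)
    {h : W.Nonsingular p 0} (hP : P + P = Affine.Point.some p 0 h) (y : F) (hy : y ^ 2 = p - q) :
    ∃ t s : F, (t = y ∨ t = -y) ∧ s ^ 2 = p - r ∧
      ∃ h' : W.Nonsingular (p + t * s) (t * s * (t + s)),
        P = Affine.Point.some (p + t * s) (t * s * (t + s)) h' := by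
  rcases P with _ | ⟨X, Y, hXY⟩
  · exfalso
    rw [← Affine.Point.zero_def, add_zero] at hP
    exact Affine.Point.some_ne_zero h hP.symm
  by_cases hY : Y = W.negY X Y
  · exfalso
    rw [Affine.Point.add_self_of_Y_eq hY] at hP
    exact Affine.Point.some_ne_zero h hP.symm
  rw [Affine.Point.add_self_of_Y_ne hY] at hP
  rw [Affine.Point.some.injEq] at hP
  obtain ⟨hx, hy'⟩ := hP
  set l := W.slope X X Y Y with hl
  have hE := (C.eqn X Y).1 hXY.1
  simp only [Affine.negY, C.h1, C.h3] at hY
  have hY0 : Y ≠ 0 := by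
    intro h0
    apply hY
    rw [h0]
    ring
  simp only [Affine.addY, Affine.negAddY, Affine.negY] at hy'
  rw [hx] at hy'
  simp only [Affine.addX, C.h1, C.h2] at hx
  rw [C.h1, C.h3] at hy'
  have hYl : Y = l * (X - p) := by linear_combination -hy'
  have hXp : X - p ≠ 0 := by
    intro h0
    apply hY0
    rw [hYl, h0, mul_zero]
  have hl2 : l ^ 2 = 2 * X - q - r := by linear_combination hx
  have hkey : (X - p) ^ 2 = (p - q) * (p - r) := by
    have h5 : (X - p) * ((2 * X - q - r) * (X - p)) = (X - p) * ((X - q) * (X - r)) := by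
      rw [← hl2]
      have h6 : Y ^ 2 = l ^ 2 * (X - p) ^ 2 := by rw [hYl]; ring
      linear_combination hE - h6
    have h7 := mul_left_cancel₀ hXp h5
    linear_combination h7
  have hy0 : y ≠ 0 := by
    intro h0
    rw [h0] at hy
    apply hpq
    linear_combination -hy
  set s := (X - p) / y with hs
  have hys : y * s = X - p := by rw [hs]; field_simp
  have hs2 : s ^ 2 = p - r := by
    have h8 : y ^ 2 * s ^ 2 = y ^ 2 * (p - r) := by
      have : y ^ 2 * s ^ 2 = (y * s) ^ 2 := by ring
      rw [this, hys, hkey, hy]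
    exact mul_left_cancel₀ (pow_ne_zero 2 hy0) h8
  have hl3 : (l - (y + s)) * (l + (y + s)) = 0 := by
    linear_combination hl2 - hy - hs2 - 2 * hys
  rcases mul_eq_zero.1 hl3 with h9 | h9
  · refine ⟨y, s, Or.inl rfl, hs2, ?_⟩
    have e1 : p + y * s = X := by rw [hys]; ring
    have e2 : y * s * (y + s) = Y := by
      rw [hys, hYl]
      linear_combination -(X - p) * h9
    rw [e1, e2]
    exact ⟨hXY, rfl⟩
  · refine ⟨-y, -s, Or.inr rfl, by rw [neg_sq, hs2], ?_⟩
    have e1 : p + -y * -s = X := by linear_combination hys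
    have e2 : -y * -s * (-y + -s) = Y := by
      rw [hYl]
      linear_combination (-y - s) * hys - (X - p) * h9
    rw [e1, e2]
    exact ⟨hXY, rfl⟩

lemma Cv.addT (C : Cv W p q r) (hqr : q ≠ r) (hpq : p ≠ q) (t s : F) (ht : t ^ 2 = p - q)
    (hs : s ^ 2 = p - r)
    (hq : W.Nonsingular q 0) (h : W.Nonsingular (p + t * s) (t * s * (t + s)))
    (h' : W.Nonsingular (p + t * -s) (t * -s * (t + -s))) :
    Affine.Point.some q 0 hq + Affine.Point.some (p + t * s) (t * s * (t + s)) h =
      Affine.Point.some (p + t * -s) (t * -s * (t + -s)) h' := by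
  have ht0 : t ≠ 0 := by
    intro h0
    rw [h0] at ht
    apply hpq
    linear_combination -ht
  have hts : t + s ≠ 0 := by
    intro h0
    apply hqr
    have : t ^ 2 - s ^ 2 = 0 := by
      have : t ^ 2 - s ^ 2 = (t + s) * (t - s) := by ring
      rw [this, h0, zero_mul]
    linear_combination ht - hs - this
  have hne : q - (p + t * s) ≠ 0 := by
    have : q - (p + t * s) = -(t * (t + s)) := by linear_combination ht
    rw [this]
    exact neg_ne_zero.2 (mul_ne_zero ht0 hts)
  have hX : q ≠ p + t * s := sub_ne_zero.1 hne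
  have hsl : W.slope q (p + t * s) 0 (t * s * (t + s)) = s := by
    rw [Affine.slope_of_X_ne hX, div_eq_iff hne]
    linear_combination -s * ht
  rw [Affine.Point.add_of_X_ne hX, Affine.Point.some.injEq, hsl]
  have hXX : W.addX q (p + t * s) s = p + t * -s := by
    simp only [Affine.addX, C.h1, C.h2]
    linear_combination hs
  refine ⟨hXX, ?_⟩
  simp only [Affine.addY, Affine.negAddY, Affine.negY]
  rw [hXX, C.h1, C.h3]
  linear_combination s * ht

end Pool.Agent.Q297.HD
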