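import Pool.Agent.Q274.HD.Stm2
import Pool.Agent.Q297.HD.HalfG

/-! Project HD, lemma HALF. -/

set_option linter.unusedVariables false

namespace Pool.Agent.Q297.HD

open WeierstrassCurve Pool.Agent.Q274.HD
open scoped Classical

lemma cvb (b : Fin 3 → ℤ) (i j k : Fin 3) (hij : i ≠ j) (hik : i ≠ k) (hjk : j ≠ k) :
    Cv ((curve b).baseChange QB).toAffine ((b i : ℤ) : QB) ((b j : ℤ) : QB) ((b k : ℤ) : QB) := by
  have key : (b i + b j + b k = b 0 + b 1 + b 2) ∧
      (b i * b j + b i * b k + b j * b k = b 0 * b 1 + b 0 * b 2 + b 1 * b 2) ∧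
      (b i * b j * b k = b 0 * b 1 * b 2) := by
    fin_cases i <;> fin_cases j <;> fin_cases k <;> simp at hij hik hjk <;>
      refine ⟨?_, ?_, ?_⟩ <;> simp only [Fin.zero_eta, Fin.mk_one, Fin.reduceFinMk] <;> ring
  obtain ⟨k1, k2, k3⟩ := key
  have k1' : ((b i : ℤ) : QB) + b j + b k = b 0 + b 1 + b 2 := by exact_mod_cast congrArg (Int.cast (R := QB)) k1
  have k2' : ((b i : ℤ) : QB) * b j + b i * b k + b j * b k = b 0 * b 1 + b 0 * b 2 + b 1 * b 2 := by
    exact_mod_cast congrArg (Int.cast (R := QB)) k2
  have k3' : ((b i : ℤ) : QB) * b j * b k = b 0 * b 1 * b 2 := by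
    exact_mod_cast congrArg (Int.cast (R := QB)) k3
  refine ⟨?_, ?_, ?_, ?_, ?_⟩
  · simp [curve, WeierstrassCurve.baseChange]
  · simp [curve, WeierstrassCurve.baseChange]
  · rw [k1']
    simp [curve, WeierstrassCurve.baseChange]
  · rw [k2']
    simp [curve, WeierstrassCurve.baseChange]
  · rw [k3']
    simp [curve, WeierstrassCurve.baseChange]

lemma exk (i j : Fin 3) (hij : i ≠ j) : ∃ k, i ≠ k ∧ j ≠ k := by
  revert i j
  decide

theorem t_HALF : S_HALF := by
  intro b hb P i j hij hP σ y hy
  obtain ⟨k, hik, hjk⟩ := exk i j hij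
  have C := cvb b i j k hij hik hjk
  set p : QB := ((b i : ℤ) : QB) with hp
  set q : QB := ((b j : ℤ) : QB) with hq
  set r : QB := ((b k : ℤ) : QB) with hr
  have hpq : p ≠ q := fun h => hij (hb (Int.cast_injective (α := QB) h))
  have hpr : p ≠ r := fun h => hik (hb (Int.cast_injective (α := QB) h))
  have hqr : q ≠ r := fun h => hjk (hb (Int.cast_injective (α := QB) h))
  have hy' : y ^ 2 = p - q := by rw [hy]; push_cast; rfl
  obtain ⟨h0, hPP⟩ := hP
  obtain ⟨t, s, hty, hs, h', hPe⟩ := C.halve two_ne_zero hpq P (h := h0) hPP y hy'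
  have ht : t ^ 2 = p - q := by
    rcases hty with h | h <;> rw [h]
    · exact hy'
    · rw [neg_sq]; exact hy'
  have hσp : σ p = p := by rw [hp]; exact map_intCast σ _
  have hσq : σ q = q := by rw [hq]; exact map_intCast σ _
  have hσr : σ r = r := by rw [hr]; exact map_intCast σ _
  have ht0 : t ≠ 0 := by
    intro h0
    rw [h0] at ht
    apply hpq
    linear_combination -ht
  have hs0 : s ≠ 0 := by
    intro h0
    rw [h0] at hs
    apply hpr
    linear_combination -hs
  have hσt : σ t = t ∨ σ t = -t := by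
    apply sq_eq_sq_iff_eq_or_eq_neg.1
    rw [← map_pow, ht, map_sub, hσp, hσq]
  have hσs : σ s = s ∨ σ s = -s := by
    apply sq_eq_sq_iff_eq_or_eq_neg.1
    rw [← map_pow, hs, map_sub, hσp, hσr]
  have hts : t + s ≠ 0 := by
    intro h0
    apply hqr
    have : t ^ 2 - s ^ 2 = 0 := by
      have : t ^ 2 - s ^ 2 = (t + s) * (t - s) := by ring
      rw [this, h0, zero_mul]
    linear_combination ht - hs - this
  have hts' : t - s ≠ 0 := by
    intro h0
    apply hqr
    have : t ^ 2 - s ^ 2 = 0 := by
      have : t ^ 2 - s ^ 2 = (t + s) * (t - s) := by ring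
      rw [this, h0, mul_zero]
    linear_combination ht - hs - this
  have hyt : σ y = y ↔ σ t = t := by
    rcases hty with h | h
    · rw [h]
    · rw [h, map_neg, neg_inj]
  have h2 : (2 : QB) ≠ 0 := two_ne_zero
  -- the Galois action on the point
  have hg : ∃ h'', gal b σ P = Affine.Point.some (p + σ t * σ s) (σ t * σ s * (σ t + σ s)) h'' := by
    have e1 : σ (p + t * s) = p + σ t * σ s := by rw [map_add, map_mul, hσp]
    have e2 : σ (t * s * (t + s)) = σ t * σ s * (σ t + σ s) := by
      rw [map_mul, map_mul, map_add]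
    rw [hPe, ← e1, ← e2]
    exact ⟨_, rfl⟩
  obtain ⟨h'', hg⟩ := hg
  have eqC := C.eqn
  rw [hyt]
  constructor
  · intro hσt'
    rcases hσs with hσs' | hσs'
    · left
      rw [sub_eq_zero]
      rw [hg, hPe, Affine.Point.some.injEq, hσt', hσs']
      exact ⟨rfl, rfl⟩
    · right
      have hTn : ((curve b).baseChange QB).toAffine.Nonsingular q 0 := by
        rw [Affine.nonsingular_iff, C.eqn, C.h1, C.h3, C.h2, C.h4]
        refine ⟨by ring, Or.inl ?_⟩
        intro h3
        have h4 : (q - p) * (q - r) = 0 := by linear_combination -h3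
        rcases mul_eq_zero.1 h4 with h5 | h5
        · exact hpq (sub_eq_zero.1 h5).symm
        · exact hqr (sub_eq_zero.1 h5)
      refine ⟨hTn, ?_⟩
      rw [sub_eq_iff_eq_add, hg, hPe]
      have hg' := h''
      rw [hσt', hσs'] at hg'
      rw [C.addT hqr hpq t s ht hs hTn h' hg', Affine.Point.some.injEq, hσt', hσs']
      exact ⟨rfl, rfl⟩
  · intro hor
    by_contra hne
    have hσt' : σ t = -t := hσt.resolve_left hne
    rcases hor with h1 | ⟨hTn, h1⟩
    · rw [sub_eq_zero, hg, hPe, Affine.Point.some.injEq, hσt'] at h1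
      obtain ⟨h3, h4⟩ := h1
      have h5 : σ s = -s := by
        have : t * (σ s + s) = 0 := by linear_combination -h3
        rcases mul_eq_zero.1 this with h6 | h6
        · exact absurd h6 ht0
        · linear_combination h6
      rw [h5] at h4
      have h7 : 2 * (t * s * (t + s)) = 0 := by linear_combination -h4
      exact mul_ne_zero h2 (mul_ne_zero (mul_ne_zero ht0 hs0) hts) h7
    · have hN : ((curve b).baseChange QB).toAffine.Nonsingular (p + t * -s) (t * -s * (t + -s)) := by
        have hne' : q - (p + t * s) ≠ 0 := by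
          have : q - (p + t * s) = -(t * (t + s)) := by linear_combination ht
          rw [this]
          exact neg_ne_zero.2 (mul_ne_zero ht0 hts)
        rw [Affine.nonsingular_iff, C.eqn, C.h1, C.h3, C.h2, C.h4]
        constructor
        · have e1 : p + t * -s - p = -(t * s) := by ring
          have e2 : p + t * -s - q = t * (t - s) := by linear_combination -ht
          have e3 : p + t * -s - r = -(s * (t - s)) := by linear_combination -hs
          rw [e1, e2, e3]
          ring
        · right
          intro h3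
          have h4 : 2 * (t * s * (t - s)) = 0 := by linear_combination -h3
          exact mul_ne_zero h2 (mul_ne_zero (mul_ne_zero ht0 hs0) hts') h4
      rw [sub_eq_iff_eq_add, hg, hPe] at h1
      rw [C.addT hqr hpq t s ht hs hTn h' hN, Affine.Point.some.injEq, hσt'] at h1
      obtain ⟨h3, h4⟩ := h1
      have h5 : σ s = s := by
        have : t * (σ s - s) = 0 := by linear_combination -h3
        rcases mul_eq_zero.1 this with h6 | h6
        · exact absurd h6 ht0
        · linear_combination h6
      rw [h5] at h4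
      have h7 : 2 * (t * s * (t - s)) = 0 := by linear_combination h4
      exact mul_ne_zero h2 (mul_ne_zero (mul_ne_zero ht0 hs0) hts') h7

end Pool.Agent.Q297.HD
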